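import Mathlib

/-!
# Finding the light coin with three scales, one of them broken: `2 n + O(√n)` weighings suffice
-/

set_option autoImplicit false

open Finset

namespace Pool.Agent.Results.MP_a3b474_co.TwoNPlusRoot

/-- A weighing of the coins `K`: a scale (`0`, `1` or `2`) and for every coin its place, `0` = left
pan, `1` = right pan, `2` = not weighed, with equally many coins in the two pans. So the place of the
light coin is the correct outcome: `0` = left lighter, `1` = right lighter, `2` = balance. -/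
structure Weighing (K : Type) [Fintype K] where
  scale : Fin 3
  place : K → Fin 3
  equal : (univ.filter fun x => place x = 0).card = (univ.filter fun x => place x = 1).card

/-- The outcomes `r` can occur if `x` is the light coin, `b` is the broken scale and the strategy is
`σ` (the next weighing as a function of the previous outcomes): all outcomes on the scales different
from `b` are correct. -/
def Possible {K : Type} [Fintype K] : (List (Fin 3) → Weighing K) → List (Fin 3) → K → Fin 3 → Prop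
  | _, [], _, _ => True
  | σ, o :: r, x, b => ((σ []).scale ≠ b → o = (σ []).place x) ∧
      Possible (fun t => σ (o :: t)) r x b

/-- There is a successful strategy with `w` weighings: whatever the light coin, the broken scale and
its answers are, the answer `ans`, a function of the outcomes, is the light coin. -/
def Success (K : Type) [Fintype K] (w : ℕ) : Prop :=
  ∃ (σ : List (Fin 3) → Weighing K) (ans : List (Fin 3) → K),
    ∀ (x : K) (b : Fin 3) (r : List (Fin 3)), r.length = w → Possible σ r x b → ans r = x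

/-- `w(n)`, the least number of weighings for `3 ^ (2 n)` coins. -/
noncomputable def least (n : ℕ) : ℕ := sInf {w | Success (Fin (3 ^ (2 * n))) w}

section

variable {K : Type} [Fintype K] [DecidableEq K]

/-- the game on the remaining hypotheses -/
def Solv : ℕ → Set (K × Fin 3) → Prop
  | 0, H => ∀ h ∈ H, ∀ h' ∈ H, h.1 = h'.1
  | w + 1, H => ∃ c : Weighing K, ∀ o, Solv w {h | h ∈ H ∧ (h.2 = c.scale ∨ c.place h.1 = o)}

theorem Solv.mono : ∀ {w : ℕ} {H H' : Set (K × Fin 3)}, H' ⊆ H → Solv w H → Solv w H'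
  | 0, _, _, hs, h => fun a ha b hb => h a (hs ha) b (hs hb)
  | w + 1, H, H', hs, ⟨c, hc⟩ => ⟨c, fun o => Solv.mono
      (H := {h | h ∈ H ∧ (h.2 = c.scale ∨ c.place h.1 = o)})
      (H' := {h | h ∈ H' ∧ (h.2 = c.scale ∨ c.place h.1 = o)}) (fun _ ha => And.intro (hs ha.1) ha.2) (hc o)⟩

/-- from the game to strategies -/
theorem strategy_of_solv [Nonempty K] : ∀ (w : ℕ) (H : Set (K × Fin 3)), Solv w H →
    ∃ (σ : List (Fin 3) → Weighing K) (ans : List (Fin 3) → K),
      ∀ h ∈ H, ∀ r : List (Fin 3), r.length = w → Possible σ r h.1 h.2 → ans r = h.1 := by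
  intro w
  induction w with
  | zero =>
    intro H hH
    classical
    have c0 : Weighing K := ⟨0, fun _ => 2, by simp⟩
    by_cases he : ∃ h, h ∈ H
    · obtain ⟨h0, hh0⟩ := he
      exact ⟨fun _ => c0, fun _ => h0.1, fun h hh _ _ _ => hH h0 hh0 h hh⟩
    · exact ⟨fun _ => c0, fun _ => Classical.arbitrary K, fun h hh => absurd ⟨h, hh⟩ he⟩
  | succ w ih =>
    rintro H ⟨c, hc⟩
    choose σ ans hσ using fun o => ih _ (hc o)
    refine ⟨fun l => match l with
      | [] => c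
      | o :: t => σ o t, fun l => match l with
      | [] => Classical.arbitrary K
      | o :: t => ans o t, ?_⟩
    intro h hh r hr hp
    match r, hr, hp with
    | [], hr, _ => simp at hr
    | o :: t, hr, hp =>
      refine hσ o h ⟨hh, ?_⟩ t (by simpa using hr) hp.2
      by_cases hb : h.2 = c.scale
      · exact Or.inl hb
      · exact Or.inr (hp.1 (fun e => hb e.symm)).symm

/-- one weighing -/
theorem step {w : ℕ} {H : Set (K × Fin 3)} (q : Fin 3) (A B : Finset K) (hd : Disjoint A B)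
    (hc : A.card = B.card) (h0 : Solv w {h | h ∈ H ∧ (h.2 = q ∨ h.1 ∈ A)})
    (h1 : Solv w {h | h ∈ H ∧ (h.2 = q ∨ h.1 ∈ B)})
    (h2 : Solv w {h | h ∈ H ∧ (h.2 = q ∨ (h.1 ∉ A ∧ h.1 ∉ B))}) : Solv (w + 1) H := by
  have hB : ∀ x ∈ B, x ∉ A := fun x hx hx' => Finset.disjoint_left.1 hd hx' hx
  refine ⟨⟨q, fun x => if x ∈ A then 0 else if x ∈ B then 1 else 2, ?_⟩, ?_⟩
  · have e0 : (univ.filter fun x => (if x ∈ A then (0 : Fin 3) else if x ∈ B then 1 else 2) = 0) = A := by
      ext x; by_cases hA : x ∈ A <;> by_cases hB' : x ∈ B <;> simp [hA, hB']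
    have e1 : (univ.filter fun x => (if x ∈ A then (0 : Fin 3) else if x ∈ B then 1 else 2) = 1) = B := by
      ext x; by_cases hA : x ∈ A <;> by_cases hB' : x ∈ B <;> simp [hA, hB']
      exact hB x hB' hA
    rw [e0, e1, hc]
  · intro o
    fin_cases o
    · refine h0.mono ?_
      rintro ⟨x, b⟩ ⟨hh, hx⟩
      refine ⟨hh, hx.imp id fun h => ?_⟩
      by_contra hA
      by_cases hB' : x ∈ B <;> simp_all
    · refine h1.mono ?_
      rintro ⟨x, b⟩ ⟨hh, hx⟩
      refine ⟨hh, hx.imp id fun h => ?_⟩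
      by_contra hA
      by_cases hB' : x ∈ A <;> simp_all
    · refine h2.mono ?_
      rintro ⟨x, b⟩ ⟨hh, hx⟩
      refine ⟨hh, hx.imp id fun h => ?_⟩
      by_cases hA : x ∈ A <;> by_cases hB' : x ∈ B <;> simp_all

/-- a scale which is known to be correct -/
theorem direct : ∀ (w : ℕ) (S : Finset K) (q : Fin 3), S.card ≤ 3 ^ w →
    Solv w {h : K × Fin 3 | h.1 ∈ S ∧ h.2 ≠ q} := by
  intro w
  induction w with
  | zero =>
    intro S q hS h hh h' hh'
    exact Finset.card_le_one.1 (by simpa using hS) _ hh.1 _ hh'.1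
  | succ w ih =>
    intro S q hS
    set l := min (3 ^ w) (S.card / 2) with hl
    obtain ⟨A, hA, hAc⟩ := Finset.exists_subset_card_eq (s := S) (n := l) (by omega)
    have h1 : (S \ A).card = S.card - l := by rw [Finset.card_sdiff_of_subset hA, hAc]
    obtain ⟨B, hB, hBc⟩ := Finset.exists_subset_card_eq (s := S \ A) (n := l) (by omega)
    have hp : 3 ^ (w + 1) = 3 * 3 ^ w := by ring
    have hpos : 0 < 3 ^ w := by positivity
    have h2 : ((S \ A) \ B).card = S.card - l - l := by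
      rw [Finset.card_sdiff_of_subset hB, hBc, h1]
    refine step q A B ?_ (by rw [hAc, hBc]) ((ih A q (by omega)).mono ?_)
      ((ih B q (by omega)).mono ?_) ((ih ((S \ A) \ B) q (by omega)).mono ?_)
    · exact (Finset.disjoint_of_subset_left hB Finset.sdiff_disjoint).symm
    · rintro ⟨x, b⟩ ⟨⟨h3, h4⟩, h5⟩
      exact ⟨h5.resolve_left h4, h4⟩
    · rintro ⟨x, b⟩ ⟨⟨h3, h4⟩, h5⟩
      exact ⟨h5.resolve_left h4, h4⟩
    · rintro ⟨x, b⟩ ⟨⟨h3, h4⟩, h5⟩
      have h6 := h5.resolve_left h4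
      exact ⟨by simp only [Finset.mem_sdiff]; exact ⟨⟨h3, h6.1⟩, h6.2⟩, h4⟩

/-- thirds -/
theorem thirds (S : Finset K) (k : ℕ) (h : S.card = 3 * k) : ∃ A B C : Finset K,
    A ⊆ S ∧ B ⊆ S ∧ C ⊆ S ∧ Disjoint A B ∧ A.card = k ∧ B.card = k ∧ C.card = k ∧
      (∀ x, x ∈ C ↔ x ∈ S ∧ x ∉ A ∧ x ∉ B) := by
  obtain ⟨A, hA, hAc⟩ := Finset.exists_subset_card_eq (s := S) (n := k) (by omega)
  have h1 : (S \ A).card = S.card - k := by rw [Finset.card_sdiff_of_subset hA, hAc]
  obtain ⟨B, hB, hBc⟩ := Finset.exists_subset_card_eq (s := S \ A) (n := k) (by omega)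
  have h2 : ((S \ A) \ B).card = S.card - k - k := by
    rw [Finset.card_sdiff_of_subset hB, hBc, h1]
  refine ⟨A, B, (S \ A) \ B, hA, hB.trans Finset.sdiff_subset, ?_, ?_, hAc, hBc, by omega, ?_⟩
  · exact Finset.sdiff_subset.trans Finset.sdiff_subset
  · exact (Finset.disjoint_of_subset_left hB Finset.sdiff_disjoint).symm
  · intro x
    simp [Finset.mem_sdiff, and_assoc]

variable (K) in
/-- `3 ^ m` coins, nothing is known about the scales -/
def PE (m w : ℕ) : Prop := ∀ U : Finset K, U.card = 3 ^ m → Solv w {h : K × Fin 3 | h.1 ∈ U}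

variable (K) in
/-- besides, `2 * 3 ^ m` coins which are possible only if the scale `s` is broken -/
def PA (m w : ℕ) : Prop := ∀ (U Y : Finset K) (s : Fin 3), Disjoint U Y → U.card = 3 ^ m →
  Y.card = 2 * 3 ^ m → Solv w {h : K × Fin 3 | h.1 ∈ U ∨ (h.1 ∈ Y ∧ h.2 = s)}

variable (K) in
/-- two such classes -/
def PB (j m w : ℕ) : Prop := ∀ (U X Y D : Finset K) (s t : Fin 3), s ≠ t → Disjoint U X →
  Disjoint U Y → Disjoint X Y → Disjoint D U → Disjoint D X → Disjoint D Y → U.card = 3 ^ j →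
  X.card ≤ 2 * 3 ^ m → Y.card = 2 * 3 ^ j → 4 * 3 ^ m ≤ D.card →
  Solv w {h : K × Fin 3 | h.1 ∈ U ∨ (h.1 ∈ X ∧ h.2 = s) ∨ (h.1 ∈ Y ∧ h.2 = t)}

theorem third_scale : ∀ s t : Fin 3, ∃ q : Fin 3, q ≠ s ∧ q ≠ t := by decide

theorem t0 {m w : ℕ} (h : PA K m w) : PE K (m + 1) (w + 1) := by
  intro U hU
  obtain ⟨A, B, C, hA, hB, hC, hAB, cA, cB, cC, hmem⟩ := thirds U (3 ^ m) (by rw [hU]; ring)
  have key : ∀ V : Finset K, V ⊆ U → V.card = 3 ^ m → Solv w {h : K × Fin 3 | h.1 ∈ U ∧ (h.2 = 0 ∨ h.1 ∈ V)} := by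
    intro V hV cV
    refine (h V (U \ V) 0 Finset.disjoint_sdiff cV (by rw [Finset.card_sdiff_of_subset hV, hU, cV, pow_succ]; omega)).mono ?_
    rintro ⟨x, b⟩ ⟨h1, h2⟩
    simp only [Set.mem_setOf_eq, Finset.mem_sdiff] at *
    tauto
  refine step 0 A B hAB (by rw [cA, cB]) (key A hA cA) (key B hB cB) ((key C hC cC).mono ?_)
  rintro ⟨x, b⟩ ⟨h1, h2⟩
  have := hmem x
  simp only [Set.mem_setOf_eq] at *
  tauto

theorem t1 {m w : ℕ} (h : PB K m m w) : PA K (m + 1) (w + 1) := by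
  intro U Y s hUY hU hY
  obtain ⟨q, hq, -⟩ := third_scale s s
  obtain ⟨A, B, C, hA, hB, hC, hAB, cA, cB, cC, hmem⟩ := thirds U (3 ^ m) (by rw [hU]; ring)
  obtain ⟨A', B', C', hA', hB', hC', hAB', cA', cB', cC', hmem'⟩ := thirds Y (2 * 3 ^ m) (by rw [hY]; ring)
  have hdis : ∀ {V V' : Finset K}, V ⊆ U → V' ⊆ Y → Disjoint V V' := fun h1 h2 =>
    Finset.disjoint_of_subset_left h1 (Finset.disjoint_of_subset_right h2 hUY)
  have key : ∀ V V' : Finset K, V ⊆ U → V' ⊆ Y → V.card = 3 ^ m → V'.card = 2 * 3 ^ m →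
      Solv w {h : K × Fin 3 | (h.1 ∈ U ∨ (h.1 ∈ Y ∧ h.2 = s)) ∧ (h.2 = q ∨ h.1 ∈ V ∨ h.1 ∈ V')} := by
    intro V V' hV hV' cV cV'
    refine (h V V' (U \ V) (Y \ V') s q hq.symm (hdis hV hV') Finset.disjoint_sdiff
      (hdis Finset.sdiff_subset hV').symm (hdis hV Finset.sdiff_subset).symm Finset.sdiff_disjoint
      (hdis Finset.sdiff_subset Finset.sdiff_subset).symm cV cV'.le
      (by rw [Finset.card_sdiff_of_subset hV, hU, cV, pow_succ]; omega)
      (by rw [Finset.card_sdiff_of_subset hV', hY, cV', pow_succ]; omega)).mono ?_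
    rintro ⟨x, b⟩ ⟨h1, h2⟩
    have h3 : x ∈ U → x ∉ Y := fun a => Finset.disjoint_left.1 hUY a
    have h4 : x ∈ V → x ∈ U := fun a => hV a
    have h5 : x ∈ V' → x ∈ Y := fun a => hV' a
    have h6 : b = s → b ≠ q := fun a e => hq (e.symm.trans a)
    simp only [Set.mem_setOf_eq, Finset.mem_sdiff] at *
    tauto
  refine step q (A ∪ A') (B ∪ B') ?_ ?_ ((key A A' hA hA' cA cA').mono ?_)
    ((key B B' hB hB' cB cB').mono ?_) ((key C C' hC hC' cC cC').mono ?_)
  · rw [Finset.disjoint_union_left, Finset.disjoint_union_right, Finset.disjoint_union_right]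
    exact ⟨⟨hAB, hdis hA hB'⟩, (hdis hB hA').symm, hAB'⟩
  · rw [Finset.card_union_of_disjoint (hdis hA hA'), Finset.card_union_of_disjoint (hdis hB hB'),
      cA, cB, cA', cB']
  · rintro ⟨x, b⟩ ⟨h1, h2⟩
    simp only [Set.mem_setOf_eq, Finset.mem_union] at *
    tauto
  · rintro ⟨x, b⟩ ⟨h1, h2⟩
    simp only [Set.mem_setOf_eq, Finset.mem_union] at *
    tauto
  · rintro ⟨x, b⟩ ⟨h1, h2⟩
    have a1 := hmem x
    have a2 := hmem' x
    simp only [Set.mem_setOf_eq, Finset.mem_union] at *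
    tauto

theorem t2 {j m w : ℕ} (hj : j + 1 ≤ m) (h : PB K j m w) : PB K (j + 1) m (w + 1) := by
  intro U X Y D s t hst hUX hUY hXY hDU hDX hDY hU hX hY hD
  obtain ⟨q, hqs, hqt⟩ := third_scale s t
  obtain ⟨A, B, C, hA, hB, hC, hAB, cA, cB, cC, hmem⟩ := thirds U (3 ^ j) (by rw [hU]; ring)
  obtain ⟨Y1, hY1, cY1⟩ := Finset.exists_subset_card_eq (s := Y) (n := 3 ^ (j + 1)) (by omega)
  have cY2 : (Y \ Y1).card = 3 ^ (j + 1) := by rw [Finset.card_sdiff_of_subset hY1, hY, cY1]; omega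
  have hdis : ∀ {V V' : Finset K}, V ⊆ U → V' ⊆ Y → Disjoint V V' := fun h1 h2 =>
    Finset.disjoint_of_subset_left h1 (Finset.disjoint_of_subset_right h2 hUY)
  have hpow : 3 ^ (j + 1) ≤ 3 ^ m := Nat.pow_le_pow_right (by norm_num) hj
  have cdiff : ∀ V : Finset K, V ⊆ U → V.card = 3 ^ j → (U \ V).card = 2 * 3 ^ j := by
    intro V hV cV
    rw [Finset.card_sdiff_of_subset hV, hU, cV, pow_succ]; omega
  have key : ∀ V V' : Finset K, V ⊆ U → V' ⊆ Y → V.card = 3 ^ j → V'.card = 3 ^ (j + 1) →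
      Solv w {h : K × Fin 3 | (h.1 ∈ U ∨ (h.1 ∈ X ∧ h.2 = s) ∨ (h.1 ∈ Y ∧ h.2 = t)) ∧
        (h.2 = q ∨ h.1 ∈ V ∨ h.1 ∈ V')} := by
    intro V V' hV hV' cV cV'
    refine (h V V' (U \ V) D t q hqt.symm (hdis hV hV') Finset.disjoint_sdiff
      (hdis Finset.sdiff_subset hV').symm (Finset.disjoint_of_subset_right hV hDU)
      (Finset.disjoint_of_subset_right hV' hDY)
      (Finset.disjoint_of_subset_right Finset.sdiff_subset hDU) cV (by omega) (cdiff V hV cV) hD).mono ?_
    rintro ⟨x, b⟩ ⟨h1, h2⟩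
    have h3 : x ∈ U → x ∉ Y := fun a => Finset.disjoint_left.1 hUY a
    have h3' : x ∈ U → x ∉ X := fun a => Finset.disjoint_left.1 hUX a
    have h3'' : x ∈ X → x ∉ Y := fun a => Finset.disjoint_left.1 hXY a
    have h4 : x ∈ V → x ∈ U := fun a => hV a
    have h5 : x ∈ V' → x ∈ Y := fun a => hV' a
    have h6 : b = s → b ≠ q := fun a e => hqs (e.symm.trans a)
    have h7 : b = t → b ≠ q := fun a e => hqt (e.symm.trans a)
    simp only [Set.mem_setOf_eq, Finset.mem_sdiff] at *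
    tauto
  refine step q (A ∪ Y1) (B ∪ (Y \ Y1)) ?_ ?_ ((key A Y1 hA hY1 cA cY1).mono ?_)
    ((key B (Y \ Y1) hB Finset.sdiff_subset cB cY2).mono ?_) ?_
  · rw [Finset.disjoint_union_left, Finset.disjoint_union_right, Finset.disjoint_union_right]
    exact ⟨⟨hAB, hdis hA Finset.sdiff_subset⟩, (hdis hB hY1).symm, Finset.disjoint_sdiff⟩
  · rw [Finset.card_union_of_disjoint (hdis hA hY1),
      Finset.card_union_of_disjoint (hdis hB Finset.sdiff_subset), cA, cB, cY1, cY2]
  · rintro ⟨x, b⟩ ⟨h1, h2⟩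
    simp only [Set.mem_setOf_eq, Finset.mem_union] at *
    tauto
  · rintro ⟨x, b⟩ ⟨h1, h2⟩
    simp only [Set.mem_setOf_eq, Finset.mem_union] at *
    tauto
  · refine (h C X (U \ C) D s q hqs.symm (Finset.disjoint_of_subset_left hC hUX)
      Finset.disjoint_sdiff (Finset.disjoint_of_subset_left Finset.sdiff_subset hUX).symm
      (Finset.disjoint_of_subset_right hC hDU) hDX
      (Finset.disjoint_of_subset_right Finset.sdiff_subset hDU) cC hX (cdiff C hC cC) hD).mono ?_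
    rintro ⟨x, b⟩ ⟨h1, h2⟩
    have a1 := hmem x
    have h3 : x ∈ U → x ∉ Y := fun a => Finset.disjoint_left.1 hUY a
    have h3' : x ∈ U → x ∉ X := fun a => Finset.disjoint_left.1 hUX a
    have h7 : b = t → b ≠ q := fun a e => hqt (e.symm.trans a)
    simp only [Set.mem_setOf_eq, Finset.mem_sdiff, Finset.mem_union] at *
    tauto

theorem t3 {j m w : ℕ} (hj : j ≤ m) (hw : m + 1 ≤ w) (h : PE K j w) : PB K j m (w + 1) := by
  intro U X Y D s t hst hUX hUY hXY hDU hDX hDY hU hX hY hD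
  obtain ⟨q, hqs, hqt⟩ := third_scale s t
  have hpow : 3 ^ j ≤ 3 ^ m := Nat.pow_le_pow_right (by norm_num) hj
  have hpow' : 3 ^ (m + 1) ≤ 3 ^ w := Nat.pow_le_pow_right (by norm_num) hw
  rw [pow_succ] at hpow'
  obtain ⟨D1, hD1, cD1⟩ := Finset.exists_subset_card_eq (s := D) (n := Y.card) (by omega)
  have c3 : (D \ D1).card = D.card - Y.card := by rw [Finset.card_sdiff_of_subset hD1, cD1]
  obtain ⟨D2, hD2, cD2⟩ := Finset.exists_subset_card_eq (s := D \ D1) (n := X.card) (by omega)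
  have hD2' : D2 ⊆ D := hD2.trans Finset.sdiff_subset
  have dis12 : Disjoint D1 D2 := (Finset.disjoint_of_subset_left hD2 Finset.sdiff_disjoint).symm
  have sX1 : Disjoint X D1 := (Finset.disjoint_of_subset_left hD1 hDX).symm
  have sX2 : Disjoint X D2 := (Finset.disjoint_of_subset_left hD2' hDX).symm
  have sY1 : Disjoint Y D1 := (Finset.disjoint_of_subset_left hD1 hDY).symm
  have sY2 : Disjoint Y D2 := (Finset.disjoint_of_subset_left hD2' hDY).symm
  refine step q (X ∪ D1) (Y ∪ D2) ?_ ?_ ((direct w (U ∪ X) t ?_).mono ?_)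
    ((direct w (U ∪ Y) s ?_).mono ?_) ((h U hU).mono ?_)
  · rw [Finset.disjoint_union_left, Finset.disjoint_union_right, Finset.disjoint_union_right]
    exact ⟨⟨hXY, sX2⟩, sY1.symm, dis12⟩
  · rw [Finset.card_union_of_disjoint sX1, Finset.card_union_of_disjoint sY2, cD1, cD2, add_comm]
  · have := Finset.card_union_le U X
    omega
  · rintro ⟨x, b⟩ ⟨h1, h2⟩
    have a1 : x ∈ U → x ∉ X := fun a => Finset.disjoint_left.1 hUX a
    have a2 : x ∈ D1 → x ∉ U := fun a => Finset.disjoint_left.1 hDU (hD1 a)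
    have a3 : x ∈ D1 → x ∉ Y := fun a => Finset.disjoint_left.1 hDY (hD1 a)
    have a4 : x ∈ X → x ∉ Y := fun a => Finset.disjoint_left.1 hXY a
    have a5 : b = q → b ≠ t := fun a e => hqt (a.symm.trans e)
    have a6 : b = s → b ≠ t := fun a e => hst (a.symm.trans e)
    simp only [Set.mem_setOf_eq, Finset.mem_union] at *
    tauto
  · have := Finset.card_union_le U Y
    omega
  · rintro ⟨x, b⟩ ⟨h1, h2⟩
    have a1 : x ∈ U → x ∉ Y := fun a => Finset.disjoint_left.1 hUY a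
    have a2 : x ∈ D2 → x ∉ U := fun a => Finset.disjoint_left.1 hDU (hD2' a)
    have a3 : x ∈ D2 → x ∉ X := fun a => Finset.disjoint_left.1 hDX (hD2' a)
    have a4 : x ∈ X → x ∉ Y := fun a => Finset.disjoint_left.1 hXY a
    have a5 : b = q → b ≠ s := fun a e => hqs (a.symm.trans e)
    have a6 : b = t → b ≠ s := fun a e => hst (e.symm.trans a)
    simp only [Set.mem_setOf_eq, Finset.mem_union] at *
    tauto
  · rintro ⟨x, b⟩ ⟨h1, h2⟩
    have a5 : b = s → b ≠ q := fun a e => hqs (e.symm.trans a)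
    have a6 : b = t → b ≠ q := fun a e => hqt (e.symm.trans a)
    simp only [Set.mem_setOf_eq, Finset.mem_union] at *
    tauto

theorem chain {m w : ℕ} : ∀ i j : ℕ, j + i ≤ m → m + 1 ≤ w → PE K j w → PB K (j + i) m (w + i + 1)
  | 0, j, h1, h2, h3 => t3 h1 h2 h3
  | i + 1, j, h1, h2, h3 => t2 (by omega) (chain i j (by omega) h2 h3)

/-- one block -/
theorem block {M k w : ℕ} (hk : 2 ≤ k) (hkM : k ≤ M) (hw : M ≤ w + 1) (h : PE K (M - k) w) :
    PE K M (w + k + 1) := by
  obtain ⟨m, rfl⟩ : ∃ m, M = m + 2 := ⟨M - 2, by omega⟩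
  obtain ⟨i, rfl⟩ : ∃ i, k = i + 2 := ⟨k - 2, by omega⟩
  have e : m + 2 - (i + 2) + i = m := by omega
  have h1 := chain (K := K) (m := m) (w := w) i (m + 2 - (i + 2)) e.le (by omega) h
  rw [e] at h1
  exact t0 (t1 h1)

theorem pe_zero (w : ℕ) : PE K 0 w := by
  induction w with
  | zero =>
    intro U hU h hh h' hh'
    exact Finset.card_le_one.1 (by rw [hU]; simp) _ hh _ hh'
  | succ w ih =>
    intro U hU
    exact step 0 ∅ ∅ (Finset.disjoint_empty_left _) rfl ((ih U hU).mono fun _ hx => hx.1)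
      ((ih U hU).mono fun _ hx => hx.1) ((ih U hU).mono fun _ hx => hx.1)

theorem main (r : ℕ) : ∀ M : ℕ, 2 * r ≤ M → 2 * M ≤ r * (r + 3) → PE K M (M + r + 1) := by
  induction r with
  | zero =>
    intro M _ h2
    have : M = 0 := by omega
    subst this
    exact pe_zero _
  | succ r ih =>
    intro M h1 h2
    have e : (r + 1) * (r + 1 + 3) = r * (r + 3) + 2 * (r + 2) := by ring
    rw [e] at h2
    obtain ⟨T, hT⟩ : ∃ T, r * (r + 3) = 2 * T := by
      rcases Nat.even_or_odd r with ⟨a, ha⟩ | ⟨a, ha⟩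
      · exact ⟨a * (r + 3), by rw [ha]; ring⟩
      · exact ⟨r * (a + 2), by rw [ha]; ring⟩
    rw [hT] at h2 ih
    have hT2 : 2 * r ≤ T := by
      rcases Nat.eq_zero_or_pos r with h0 | h0
      · subst h0; omega
      · have : 2 * (2 * r) ≤ 2 * T := by rw [← hT]; nlinarith
        omega
    set k := max 2 (M - T) with hk
    have h3 := block (K := K) (M := M) (k := k) (w := (M - k) + r + 1) (by omega) (by omega) (by omega)
      (ih (M - k) (by omega) (by omega))
    have e2 : M - k + r + 1 + k + 1 = M + (r + 1) + 1 := by omega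
    rwa [e2] at h3

end

theorem success {n r : ℕ} (h1 : r ≤ n) (h2 : 4 * n ≤ r * (r + 3)) :
    Success (Fin (3 ^ (2 * n))) (2 * n + r + 1) := by
  have h := main (K := Fin (3 ^ (2 * n))) r (2 * n) (by omega) (by omega) univ (by simp)
  haveI : Nonempty (Fin (3 ^ (2 * n))) := ⟨⟨0, by positivity⟩⟩
  obtain ⟨σ, ans, hσ⟩ := strategy_of_solv _ _ h
  exact ⟨σ, ans, fun x b r hr hp => hσ (x, b) (by simp) r hr hp⟩

/-- **Theorem.** -/
theorem result :
    (∀ n r : ℕ, r ≤ n → 4 * n ≤ r * (r + 3) → Success (Fin (3 ^ (2 * n))) (2 * n + r + 1) ∧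
      least n ≤ 2 * n + r + 1) ∧
    (∀ n : ℕ, 4 ≤ n → least n < 3 * n + 1) ∧
    (∀ n : ℕ, 4 ≤ n → (least n : ℝ) ≤ 2 * n + 2 * √n + 2) := by
  have hmain : ∀ n r : ℕ, r ≤ n → 4 * n ≤ r * (r + 3) → least n ≤ 2 * n + r + 1 :=
    fun n r h1 h2 => Nat.sInf_le (success h1 h2)
  refine ⟨fun n r h1 h2 => ⟨success h1 h2, hmain n r h1 h2⟩, ?_, ?_⟩
  · intro n hn
    have := hmain n (n - 1) (by omega) (by
      obtain ⟨a, rfl⟩ : ∃ a, n = a + 4 := ⟨n - 4, by omega⟩
      have : a + 4 - 1 = a + 3 := by omega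
      rw [this]; nlinarith)
    omega
  · intro n hn
    have hn' : (4 : ℝ) ≤ n := by exact_mod_cast hn
    set r := ⌈2 * √(n : ℝ)⌉₊ with hr
    have h1 : (r : ℝ) < 2 * √n + 1 := Nat.ceil_lt_add_one (by positivity)
    have h2 : 2 * √(n : ℝ) ≤ r := Nat.le_ceil _
    have hs := Real.sq_sqrt (show (0 : ℝ) ≤ n by positivity)
    have h3 : 4 * n ≤ r * (r + 3) := by
      have h4 : (4 * n : ℝ) ≤ (r : ℝ) * (r + 3) := by
        nlinarith [Real.sqrt_nonneg (n : ℝ)]
      exact_mod_cast h4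
    have h7 : (2 : ℝ) ≤ √n := Real.le_sqrt_of_sq_le (by linarith)
    have h5 : r ≤ n := Nat.ceil_le.2 (by nlinarith)
    have h6 : (least n : ℝ) ≤ 2 * n + r + 1 := by exact_mod_cast hmain n r h5 h3
    linarith

end Pool.Agent.Results.MP_a3b474_co.TwoNPlusRoot
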